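import Pool.Agent.H624.LD.Stm
import Pool.Graph.R_pool_sql_team_seeded_9f66d723.W6h79.LD.HA
import Pool.Graph.R_pool_sql_team_seeded_9f66d723.W6h79.LD.W11

/-!
# (HAG) One member lives essentially on finitely many members of `𝓢`, all uncountable cardinals
-/

set_option autoImplicit false

open MeasureTheory Set Filter
open scoped ENNReal NNReal Topology
open Pool.Agent.W6h79.LD

noncomputable section

namespace Pool.Agent.H624.LD

namespace HAGx

/-- (HA1) without regularity -/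
theorem ha1g.{u} (Ω : Type u) [MeasurableSpace Ω] (μ : Measure Ω) (A : Type u)
    (hA : Cardinal.aleph0 < Cardinal.mk A) (G : Set Ω)
    (hd : DensLt (Cardinal.mk A) (Lp ℝ 1 (μ.restrict G)))
    (z : A → Lp ℝ 1 μ) (C : ℝ)
    (hz : ∀ (J : Finset A) (ε : A → ℝ), (∀ k, |ε k| ≤ 1) →
      ‖∑ k ∈ J, ε k • z k‖ ≤ C * Real.sqrt J.card) (ρ : ℝ) (hρ : 0 < ρ) :
    Cardinal.mk {k | ρ < ∫ ω in G, |z k ω| ∂μ} < Cardinal.mk A := by
  obtain ⟨D, hD, hDc⟩ := hd
  by_contra hcon
  push Not at hcon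
  set Rr := LpToLpRestrictCLM Ω ℝ ℝ μ 1 G with hRr
  have hnorm : ∀ k, ‖Rr (z k)‖ = ∫ ω in G, |z k ω| ∂μ := by
    intro k
    rw [L1.norm_eq_integral_norm]
    refine integral_congr_ae ?_
    filter_upwards [LpToLpRestrictCLM_coeFn ℝ G (z k)] with ω hω
    rw [hRr, hω, Real.norm_eq_abs]
  have hch : ∀ k : {k | ρ < ∫ ω in G, |z k ω| ∂μ}, ∃ d : D, ‖Rr (z k) - d‖ < ρ / 4 := by
    intro k
    obtain ⟨d, hd1, hd2⟩ := Metric.dense_iff.mp hD (Rr (z k)) (ρ / 4) (by positivity)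
    refine ⟨⟨d, hd2⟩, ?_⟩
    rw [Metric.mem_ball, dist_comm, dist_eq_norm] at hd1
    exact hd1
  choose d hd using hch
  have hex : ∃ e : D, Infinite (d ⁻¹' {e}) := by
    have hki : Infinite {k | ρ < ∫ ω in G, |z k ω| ∂μ} :=
      Cardinal.infinite_iff.2 (hA.le.trans hcon)
    rcases finite_or_infinite D with hfin | hinf
    · exact Finite.exists_infinite_fiber d
    · exact Cardinal.exists_infinite_fiber d (hDc.trans_le hcon)
  obtain ⟨e, he⟩ := hex
  have hinf : (d ⁻¹' {e}).Infinite := Set.infinite_coe_iff.1 he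
  -- the bound for m members
  have key : ∀ m : ℕ, m * (ρ / 2) ≤ C * Real.sqrt m := by
    intro m
    obtain ⟨J, hJ1, hJ2⟩ := hinf.exists_subset_card_eq m
    have hJe : ∀ k ∈ J, ‖Rr (z k) - e‖ < ρ / 4 := by
      intro k hk
      have h1 : d k = e := hJ1 hk
      rw [← h1]
      exact hd k
    have hbound := hz (J.map (Function.Embedding.subtype _)) (fun _ => 1) (fun k => by simp)
    rw [Finset.card_map, hJ2, Finset.sum_map] at hbound
    simp only [one_smul, Function.Embedding.subtype_apply] at hbound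
    refine le_trans ?_ hbound
    have h2 : ‖Rr (∑ k ∈ J, z k)‖ ≤ ‖∑ k ∈ J, z k‖ := norm_Lp_toLp_restrict_le G _
    refine le_trans ?_ h2
    rw [map_sum]
    rcases J.eq_empty_or_nonempty with hJ0 | ⟨k0, hk0⟩
    · subst hJ0
      simp at hJ2
      subst hJ2
      simp
    · have h3 : ρ - ρ / 4 ≤ ‖(e : Lp ℝ 1 (μ.restrict G))‖ := by
        have h4 := hJe k0 hk0
        have h5 : ρ < ‖Rr (z k0)‖ := by rw [hnorm]; exact k0.2
        have h6 := norm_sub_norm_le (Rr (z k0)) (e : Lp ℝ 1 (μ.restrict G))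
        linarith
      have h7 : ∑ k ∈ J, Rr (z k) = (m : ℝ) • (e : Lp ℝ 1 (μ.restrict G)) +
          ∑ k ∈ J, (Rr (z k) - e) := by
        rw [Finset.sum_sub_distrib, Finset.sum_const, hJ2, Nat.cast_smul_eq_nsmul]
        abel
      rw [h7]
      have h8 : ‖∑ k ∈ J, (Rr (z k) - e)‖ ≤ m * (ρ / 4) := by
        refine (norm_sum_le _ _).trans ((Finset.sum_le_card_nsmul J _ (ρ / 4)
          fun k hk => (hJe k hk).le).trans ?_)
        rw [hJ2, nsmul_eq_mul]
      have h9 : ‖(m : ℝ) • (e : Lp ℝ 1 (μ.restrict G))‖ = m * ‖(e : Lp ℝ 1 (μ.restrict G))‖ := by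
        rw [norm_smul, Real.norm_of_nonneg (Nat.cast_nonneg m)]
      have h10 := norm_sub_norm_le ((m : ℝ) • (e : Lp ℝ 1 (μ.restrict G)))
        (-∑ k ∈ J, (Rr (z k) - e))
      rw [norm_neg, sub_neg_eq_add, h9] at h10
      have h11 : (m : ℝ) * (ρ - ρ / 4) ≤ m * ‖(e : Lp ℝ 1 (μ.restrict G))‖ :=
        mul_le_mul_of_nonneg_left h3 (Nat.cast_nonneg m)
      have h12 : (0 : ℝ) ≤ m := Nat.cast_nonneg m
      nlinarith
  -- contradiction
  obtain ⟨m, hm⟩ := exists_nat_gt ((2 * C / ρ) ^ 2 + 1)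
  have hm0 : (0 : ℝ) < m := by nlinarith [sq_nonneg (2 * C / ρ)]
  have h1 := key m
  have h2 : Real.sqrt m * Real.sqrt m = m := Real.mul_self_sqrt hm0.le
  have h3 : 0 < Real.sqrt m := Real.sqrt_pos.mpr hm0
  have h4 : Real.sqrt m * (ρ / 2) ≤ C := by
    have h5 : Real.sqrt m * (Real.sqrt m * (ρ / 2)) ≤ Real.sqrt m * C := by
      nlinarith
    exact le_of_mul_le_mul_left h5 h3
  have h6 : Real.sqrt m ≤ 2 * C / ρ := by
    rw [le_div_iff₀ hρ]
    linarith
  have h7 : (m : ℝ) ≤ (2 * C / ρ) ^ 2 := by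
    rw [← h2]
    nlinarith
  linarith



open PMh1 in
/-- exhaustion of a set without thick subsets by sets of small density -/
theorem exh.{u} {κ : Cardinal.{u}} (hκ : Cardinal.aleph0 < κ) {Ω : Type u} [MeasurableSpace Ω]
    {μ : Measure Ω} {G : Set Ω} (hG : MeasurableSet G) (hGf : μ G < ∞)
    (hno : ∀ E ⊆ G, ¬ Thick κ μ E) (ν : Measure Ω) [IsFiniteMeasure ν] (hν : ν ≪ μ) {δ : ℝ}
    (hδ : 0 < δ) :
    ∃ G' ⊆ G, MeasurableSet G' ∧ DensLt κ (Lp ℝ 1 (μ.restrict G')) ∧ ν.real (G \ G') ≤ δ := by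
  set P : Set ℝ≥0∞ := μ '' {F | F ⊆ G ∧ MeasurableSet F ∧ Pf κ μ F} with hP
  have hne : P.Nonempty := ⟨_, ⟨∅, ⟨empty_subset _, MeasurableSet.empty,
    pf_null hκ measure_empty⟩, rfl⟩⟩
  obtain ⟨w, -, hw, hwP⟩ := exists_seq_tendsto_sSup hne (OrderTop.bddAbove P)
  choose F hF hFw using hwP
  have hacc : ∀ n, accumulate F n ⊆ G ∧ MeasurableSet (accumulate F n) ∧
      Pf κ μ (accumulate F n) := by
    intro n
    induction n with
    | zero => simpa [accumulate_def] using hF 0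
    | succ n ih =>
      rw [accumulate_succ]
      exact ⟨union_subset ih.1 (hF (n + 1)).1, ih.2.1.union (hF (n + 1)).2.1,
        pf_union hκ ih.2.1 (hF (n + 1)).2.1 ih.2.2 (hF (n + 1)).2.2⟩
  obtain ⟨N, hN⟩ : ∃ N : Set Ω, N = ⋃ n, F n := ⟨_, rfl⟩
  have hNa : ⋃ n, accumulate F n = N := by rw [iUnion_accumulate, hN]
  have hNm : MeasurableSet N := by
    rw [hN]
    exact MeasurableSet.iUnion fun n => (hF n).2.1
  have hNG : N ⊆ G := by
    rw [hN]
    exact iUnion_subset fun n => (hF n).1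
  have hle : sSup P ≤ μ N := by
    refine le_of_tendsto hw (Eventually.of_forall fun n => ?_)
    rw [← hFw n, hN]
    exact measure_mono (subset_iUnion F n)
  have hNf : μ N ≠ ∞ := ((measure_mono hNG).trans_lt hGf).ne
  have hlim : Tendsto (fun n => μ (accumulate F n)) atTop (𝓝 (μ N)) := by
    rw [← hNa]
    exact tendsto_measure_iUnion_atTop monotone_accumulate
  have hnull : μ (G \ N) = 0 := by
    by_contra hpos
    have hGNf : μ (G \ N) < ∞ := (measure_mono sdiff_subset).trans_lt hGf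
    have hsub : ∃ H ⊆ G \ N, MeasurableSet H ∧ 0 < μ H ∧ DensLt κ (Lp ℝ 1 (μ.restrict H)) := by
      by_contra hcon
      push Not at hcon
      refine hno (G \ N) sdiff_subset ⟨hG.diff hNm, pos_iff_ne_zero.2 hpos, hGNf, ?_, ?_⟩
      · intro B hB hBat
        refine hcon B hB hBat.1 hBat.2.1 ?_
        exact PW11.densLt_atom hκ hBat ((measure_mono hB).trans_lt hGNf)
      · intro H hH hHm hHpos hd
        exact hcon H hH hHm hHpos hd
    obtain ⟨H, hHs, hHm, hHpos, hHd⟩ := hsub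
    have h3 : ∀ n, μ (accumulate F n) + μ H ≤ μ N := by
      intro n
      have hd : Disjoint (accumulate F n) H := by
        rw [Set.disjoint_left]
        intro ω h4 h5
        refine (hHs h5).2 ?_
        rw [← hNa]
        exact mem_iUnion.2 ⟨n, h4⟩
      rw [← measure_union hd hHm]
      refine (le_sSup ?_).trans hle
      exact ⟨_, ⟨union_subset (hacc n).1 (hHs.trans sdiff_subset), (hacc n).2.1.union hHm,
        pf_union hκ (hacc n).2.1 hHm (hacc n).2.2 (dens_pf hHm hHd)⟩, rfl⟩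
    have h4 : μ N + μ H ≤ μ N := le_of_tendsto (hlim.add_const _) (Eventually.of_forall h3)
    have h5 : μ N + μ H ≤ μ N + 0 := by rwa [add_zero]
    exact hHpos.ne' (le_antisymm ((ENNReal.add_le_add_iff_left hNf).1 h5) zero_le)
  have hlim2 : Tendsto (fun n => ν (G \ accumulate F n)) atTop (𝓝 0) := by
    have h1 := tendsto_measure_iInter_atTop (μ := ν) (s := fun n => G \ accumulate F n)
      (fun n => (hG.diff (hacc n).2.1).nullMeasurableSet)
      (fun a b hab => sdiff_le_sdiff_left (monotone_accumulate hab)) ⟨0, measure_ne_top _ _⟩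
    have h2 : (⋂ n, G \ accumulate F n) = G \ N := by
      rw [← hNa, sdiff_iUnion]
    rw [h2, hν hnull] at h1
    exact h1
  have h2 : (0 : ℝ≥0∞) < ENNReal.ofReal δ := ENNReal.ofReal_pos.2 hδ
  obtain ⟨n, hn⟩ := (hlim2.eventually_lt_const h2).exists
  refine ⟨accumulate F n, (hacc n).1, (hacc n).2.1, pf_dens (hacc n).2.1 (hacc n).2.2, ?_⟩
  exact ENNReal.toReal_le_of_le_ofReal hδ.le hn.le

end HAGx

open HAx HAGx in
/-- **(HAG)** -/
theorem sHAG.{u} (h0 : S_HA0.{u}) : S_HAG.{u} := by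
  classical
  intro Ω _ μ 𝓢 A hA hcov z C hz η hη
  by_cases hc : ∃ k, ∃ 𝓣 : Set (Set Ω), 𝓣.Countable ∧ 𝓣 ⊆ 𝓢 ∧
      ∫ ω in (⋃₀ 𝓣)ᶜ, |z k ω| ∂μ < η
  · obtain ⟨k, 𝓣, hTc, hTS, hk⟩ := hc
    obtain ⟨F, M, hF, hFM⟩ := HH.exists_fin 𝓣 hTc (fun S hS => (hcov.1 S (hTS hS)).1) (z k) η hk
    exact ⟨k, F, M, hF.trans hTS, hFM⟩
  exfalso
  push Not at hc
  obtain ⟨m, hm⟩ := exists_nat_gt ((2 * |C| / η) ^ 2)
  have hm0 : (0 : ℝ) < m := lt_of_le_of_lt (sq_nonneg _) hm
  have hsq : 2 * |C| / η < √(m : ℝ) := (Real.lt_sqrt (by positivity)).2 hm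
  have hCm : C * √(m : ℝ) < m * (η / 2) := by
    have h2 : |C| < √(m : ℝ) * (η / 2) := by
      rw [div_lt_iff₀ hη] at hsq
      linarith
    calc C * √(m : ℝ) ≤ |C| * √(m : ℝ) := by gcongr; exact le_abs_self C
      _ < (√(m : ℝ) * (η / 2)) * √(m : ℝ) := by
          apply mul_lt_mul_of_pos_right h2 (Real.sqrt_pos.2 hm0)
      _ = (√(m : ℝ) * √(m : ℝ)) * (η / 2) := by ring
      _ = m * (η / 2) := by rw [Real.mul_self_sqrt hm0.le]
  set δ : ℝ := η / (2 * (2 * m + 1)) with hδdef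
  have hδ : 0 < δ := by positivity
  have hδ2 : 0 < δ / 2 := by positivity
  choose 𝓣 hTc hTS hTn using fun k => h0 Ω μ 𝓢 hcov.1 (z k)
  have hUm : ∀ k, MeasurableSet (⋃₀ (𝓣 k)) := fun k =>
    MeasurableSet.sUnion (hTc k) fun S hS => (hcov.1 S (hTS k hS)).1
  choose G0 hG0m hG0f hG0s hG0δ using fun k => exists_G (z k) (⋃₀ (𝓣 k)) (hUm k) hδ2
  have hG0S : ∀ k, ∀ S ∈ 𝓢, μ (G0 k ∩ S) = 0 := fun k S hS =>
    measure_mono_null (inter_subset_inter_left _ (hG0s k)) (hTn k S hS)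
  have hno : ∀ k, ∀ E ⊆ G0 k, ¬ Thick (Cardinal.mk A) μ E := by
    intro k E hE hT
    obtain ⟨S, hS, hp⟩ := hcov.2 E hT
    exact hp.ne' (measure_mono_null (inter_subset_inter_left _ hE) (hG0S k S hS))
  choose G hGG hGm hGd hGδ' using fun k => exh hA (hG0m k) (hG0f k) (hno k) (nu (z k))
    (withDensity_absolutelyContinuous μ _) hδ2
  have hGf : ∀ k, μ (G k) < ∞ := fun k => (measure_mono (hGG k)).trans_lt (hG0f k)
  have hGs : ∀ k, G k ⊆ {ω | z k ω ≠ 0} \ ⋃₀ (𝓣 k) := fun k => (hGG k).trans (hG0s k)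
  have hGδ : ∀ k, (nu (z k)).real ((⋃₀ (𝓣 k))ᶜ \ G k) ≤ δ := by
    intro k
    have h2 : (nu (z k)).real ((⋃₀ (𝓣 k))ᶜ \ G k) ≤
        (nu (z k)).real ((⋃₀ (𝓣 k))ᶜ \ G0 k) + (nu (z k)).real (G0 k \ G k) := by
      refine (measureReal_mono ?_).trans (measureReal_union_le _ _)
      intro ω hω
      by_cases h : ω ∈ G0 k
      · exact Or.inr ⟨h, hω.2⟩
      · exact Or.inl ⟨hω.1, h⟩
    linarith [hG0δ k, hGδ' k]
  have hGS : ∀ k, ∀ S ∈ 𝓢, μ (G k ∩ S) = 0 := fun k S hS =>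
    measure_mono_null (inter_subset_inter_left _ (hGs k)) (hTn k S hS)
  have hcard : ∀ k, Cardinal.mk {k' | δ < (nu (z k')).real (G k)} < Cardinal.mk A := by
    intro k
    have h2 := ha1g Ω μ A hA (G k) (hGd k) z C hz δ hδ
    simp only [nu_real _ (hGm k)]
    exact h2
  have hinf : Cardinal.aleph0 ≤ Cardinal.mk A := hA.le
  have hfin : ∀ s : Finset A, Cardinal.mk {y | ∃ x ∈ s, x = y ∨ δ < (nu (z y)).real (G x)} <
      Cardinal.mk A := by
    intro s
    induction s using Finset.induction_on with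
    | empty =>
      have h2 : {y : A | ∃ x ∈ (∅ : Finset A), x = y ∨ δ < (nu (z y)).real (G x)} = ∅ := by
        ext y
        simp
      rw [h2, Cardinal.mk_eq_zero]
      exact lt_of_lt_of_le Cardinal.aleph0_pos hinf
    | insert a s ha ih =>
      have h2 : {y : A | ∃ x ∈ insert a s, x = y ∨ δ < (nu (z y)).real (G x)} ⊆
          ({a} ∪ {y | δ < (nu (z y)).real (G a)}) ∪
            {y | ∃ x ∈ s, x = y ∨ δ < (nu (z y)).real (G x)} := by
        rintro y ⟨x, hx, hxy⟩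
        rcases Finset.mem_insert.1 hx with rfl | hx
        · rcases hxy with rfl | hxy
          · exact Or.inl (Or.inl rfl)
          · exact Or.inl (Or.inr hxy)
        · exact Or.inr ⟨x, hx, hxy⟩
      refine lt_of_le_of_lt (Cardinal.mk_le_mk_of_subset h2) ?_
      refine lt_of_le_of_lt (Cardinal.mk_union_le _ _) (Cardinal.add_lt_of_lt hinf ?_ ih)
      refine lt_of_le_of_lt (Cardinal.mk_union_le _ _) (Cardinal.add_lt_of_lt hinf ?_ (hcard a))
      rw [Cardinal.mk_singleton]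
      exact lt_of_lt_of_le Cardinal.one_lt_aleph0 hinf
  obtain ⟨f, -, hf⟩ := exists_seq_of_forall_finset_exists (fun _ : A => True)
    (fun x y => x ≠ y ∧ (nu (z y)).real (G x) ≤ δ) (by
      intro s _
      by_contra hcon
      push Not at hcon
      have h2 : {y | ∃ x ∈ s, x = y ∨ δ < (nu (z y)).real (G x)} = univ := by
        rw [eq_univ_iff_forall]
        intro y
        obtain ⟨x, hx, hxy⟩ := hcon y trivial
        by_cases h : x = y
        · exact ⟨x, hx, Or.inl h⟩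
        · exact ⟨x, hx, Or.inr (hxy h)⟩
      have h3 := hfin s
      rw [h2, Cardinal.mk_univ] at h3
      exact lt_irrefl _ h3)
  have hfi : Function.Injective f := by
    intro i j hij
    by_contra hne
    rcases lt_or_gt_of_ne hne with h | h
    · exact (hf i j h).1 hij
    · exact (hf j i h).1 hij.symm
  have hlow := hump m (fun i => z (f i)) (fun i => G (f i)) (fun i => hGm (f i)) δ (η - δ) hδ.le
    (by
      intro j
      have h2 := hc (f j) (𝓣 (f j)) (hTc _) (hTS _)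
      rw [← nu_real _ (hUm _).compl] at h2
      have h3 : (nu (z (f j))).real (⋃₀ (𝓣 (f j)))ᶜ ≤ (nu (z (f j))).real (G (f j)) +
          (nu (z (f j))).real ((⋃₀ (𝓣 (f j)))ᶜ \ G (f j)) := by
        refine (measureReal_mono ?_).trans (measureReal_union_le _ _)
        intro ω hω
        by_cases h : ω ∈ G (f j)
        · exact Or.inl h
        · exact Or.inr ⟨hω, h⟩
      linarith [hGδ (f j)])
    (fun i j hij => (hf i j hij).2)
    (by
      intro i j hij
      have h2 : nu (z (f i)) (G (f j) ∩ ⋃₀ (𝓣 (f i))) = 0 := by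
        apply nu_null
        rw [sUnion_eq_biUnion, inter_iUnion₂]
        refine (measure_biUnion_null_iff (hTc (f i))).2 fun S hS => ?_
        exact hGS (f j) S (hTS (f i) hS)
      have h3 : (nu (z (f i))).real (G (f j) ∩ ⋃₀ (𝓣 (f i))) = 0 := by
        rw [Measure.real, h2, ENNReal.toReal_zero]
      have h4 : (nu (z (f i))).real (G (f j) \ G (f i)) ≤
          (nu (z (f i))).real (G (f j) ∩ ⋃₀ (𝓣 (f i))) +
            (nu (z (f i))).real ((⋃₀ (𝓣 (f i)))ᶜ \ G (f i)) := by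
        refine (measureReal_mono ?_).trans (measureReal_union_le _ _)
        intro ω hω
        by_cases h : ω ∈ ⋃₀ (𝓣 (f i))
        · exact Or.inl ⟨hω.1, h⟩
        · exact Or.inr ⟨h, hω.2⟩
      linarith [hGδ (f i)])
  have hup := hz ((Finset.range m).image f) (fun _ => 1) (fun _ => by simp)
  rw [Finset.card_image_of_injective _ hfi, Finset.card_range,
    Finset.sum_image (fun i _ j _ hij => hfi hij)] at hup
  simp only [one_smul] at hup
  have h5 : (m : ℝ) * (η - δ - 2 * m * δ) = m * (η / 2) := by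
    rw [hδdef]
    have : (2 * (m : ℝ) + 1) ≠ 0 := by positivity
    field_simp
    ring
  rw [h5] at hlow
  linarith



end Pool.Agent.H624.LD
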