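import Pool.Agent.H624.LD.Stm
import Pool.Graph.R_pool_sql_team_seeded_9f66d723.W6h79.LD.KC

/-!
# (KCG) Doubling a cover of the thick sets
-/

set_option autoImplicit false

open MeasureTheory Set Filter
open scoped ENNReal NNReal Topology
open Pool.Agent.W6h79.LD

noncomputable section

namespace Pool.Agent.H624.LD

namespace KCGx

universe u

variable {Ω : Type u} [MeasurableSpace Ω]

theorem zeroDens {κ : Cardinal.{u}} (hκ : Cardinal.aleph0 ≤ κ) :
    DensLt κ (Lp ℝ 1 (0 : Measure Ω)) := by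
  refine ⟨{0}, ?_, ?_⟩
  · intro x
    have : x = 0 := by
      apply Lp.ext
      rw [Filter.EventuallyEq, ae_zero]
      exact Filter.eventually_bot
    rw [this]
    exact subset_closure rfl
  · rw [Cardinal.mk_singleton]
    exact Cardinal.one_lt_aleph0.trans_le hκ

theorem rinl (μ : Measure Ω) (F : Set Ω) (hF : MeasurableSet F) :
    (μ.map (Sum.inl : Ω → Ω ⊕ Ω) + μ.map (Sum.inr : Ω → Ω ⊕ Ω)).restrict (Sum.inl '' F) =
      (μ.restrict F).map Sum.inl + (0 : Measure Ω).map Sum.inr := by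
  rw [Measure.restrict_add, Measure.restrict_map measurable_inl (measurableSet_inl_image.2 hF),
    Measure.restrict_map measurable_inr (measurableSet_inl_image.2 hF),
    Set.preimage_image_eq _ Sum.inl_injective]
  have : (Sum.inr : Ω → Ω ⊕ Ω) ⁻¹' (Sum.inl '' F) = ∅ := by
    ext x; simp
  rw [this, Measure.restrict_empty]

theorem rinr (μ : Measure Ω) (F : Set Ω) (hF : MeasurableSet F) :
    (μ.map (Sum.inl : Ω → Ω ⊕ Ω) + μ.map (Sum.inr : Ω → Ω ⊕ Ω)).restrict (Sum.inr '' F) =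
      (0 : Measure Ω).map Sum.inl + (μ.restrict F).map Sum.inr := by
  rw [Measure.restrict_add, Measure.restrict_map measurable_inl (measurableSet_inr_image.2 hF),
    Measure.restrict_map measurable_inr (measurableSet_inr_image.2 hF),
    Set.preimage_image_eq _ Sum.inr_injective]
  have : (Sum.inl : Ω → Ω ⊕ Ω) ⁻¹' (Sum.inr '' F) = ∅ := by
    ext x; simp
  rw [this, Measure.restrict_empty]

end KCGx

universe u

open KCGx in
/-- **(KCG)** -/
theorem sKCG : S_KCG.{u} := by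
  intro κ hκ Ω _ μ 𝓢 h
  constructor
  · rintro _ (⟨S, hS, rfl⟩ | ⟨S, hS, rfl⟩)
    · exact ⟨measurableSet_inl_image.2 (h.1 S hS).1, by
        show _ < _
        simp only []
        rw [dbl_inl μ S (h.1 S hS).1]; exact (h.1 S hS).2⟩
    · exact ⟨measurableSet_inr_image.2 (h.1 S hS).1, by
        show _ < _
        simp only []
        rw [dbl_inr μ S (h.1 S hS).1]; exact (h.1 S hS).2⟩
  · rintro E ⟨hE, hpos, hfin, hat, hth⟩
    have hE1 : MeasurableSet ((Sum.inl : Ω → Ω ⊕ Ω) ⁻¹' E) := measurable_inl hE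
    have hE2 : MeasurableSet ((Sum.inr : Ω → Ω ⊕ Ω) ⁻¹' E) := measurable_inr hE
    have hval : (μ.map (Sum.inl : Ω → Ω ⊕ Ω) + μ.map (Sum.inr : Ω → Ω ⊕ Ω)) E =
        μ ((Sum.inl : Ω → Ω ⊕ Ω) ⁻¹' E) + μ ((Sum.inr : Ω → Ω ⊕ Ω) ⁻¹' E) := by
      rw [Measure.add_apply, Measure.map_apply measurable_inl hE,
        Measure.map_apply measurable_inr hE]
    rw [hval] at hpos hfin
    have hf1 : μ ((Sum.inl : Ω → Ω ⊕ Ω) ⁻¹' E) < ∞ := lt_of_le_of_lt le_self_add hfin
    have hf2 : μ ((Sum.inr : Ω → Ω ⊕ Ω) ⁻¹' E) < ∞ := lt_of_le_of_lt le_add_self hfin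
    by_cases h1 : μ ((Sum.inl : Ω → Ω ⊕ Ω) ⁻¹' E) = 0
    · have h2 : 0 < μ ((Sum.inr : Ω → Ω ⊕ Ω) ⁻¹' E) := by
        rw [h1, zero_add] at hpos; exact hpos
      obtain ⟨S, hS, hSp⟩ := h.2 ((Sum.inr : Ω → Ω ⊕ Ω) ⁻¹' E) ⟨hE2, h2, hf2, by
          intro B hB hBat
          refine hat (Sum.inr '' B) ?_ (atom_inr μ hBat)
          rintro _ ⟨x, hx, rfl⟩
          exact hB hx, by
          intro F hF hFm hFpos hd
          refine hth (Sum.inr '' F) ?_ (measurableSet_inr_image.2 hFm) ?_ ?_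
          · rintro _ ⟨x, hx, rfl⟩
            exact hF hx
          · rw [dbl_inr μ F hFm]; exact hFpos
          · rw [rinr μ F hFm]
            exact KCx.densK hκ _ _ (zeroDens hκ) hd⟩
      refine ⟨Sum.inr '' S, Or.inr ⟨S, hS, rfl⟩, lt_of_lt_of_le hSp ?_⟩
      rw [← dbl_inr μ _ (hE2.inter (h.1 S hS).1)]
      refine measure_mono ?_
      rintro _ ⟨x, ⟨hx1, hx2⟩, rfl⟩
      exact ⟨hx1, x, hx2, rfl⟩
    · obtain ⟨S, hS, hSp⟩ := h.2 ((Sum.inl : Ω → Ω ⊕ Ω) ⁻¹' E)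
          ⟨hE1, pos_iff_ne_zero.2 h1, hf1, by
          intro B hB hBat
          refine hat (Sum.inl '' B) ?_ (atom_inl μ hBat)
          rintro _ ⟨x, hx, rfl⟩
          exact hB hx, by
          intro F hF hFm hFpos hd
          refine hth (Sum.inl '' F) ?_ (measurableSet_inl_image.2 hFm) ?_ ?_
          · rintro _ ⟨x, hx, rfl⟩
            exact hF hx
          · rw [dbl_inl μ F hFm]; exact hFpos
          · rw [rinl μ F hFm]
            exact KCx.densK hκ _ _ hd (zeroDens hκ)⟩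
      refine ⟨Sum.inl '' S, Or.inl ⟨S, hS, rfl⟩, lt_of_lt_of_le hSp ?_⟩
      rw [← dbl_inl μ _ (hE1.inter (h.1 S hS).1)]
      refine measure_mono ?_
      rintro _ ⟨x, ⟨hx1, hx2⟩, rfl⟩
      exact ⟨hx1, x, hx2, rfl⟩

end Pool.Agent.H624.LD
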