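import Pool.Agent.H624.LD.Stm

/-!
# (MHT) Thick sets carry `κ` independent halving sets (every uncountable `κ`)
-/

set_option autoImplicit false

open MeasureTheory Set Filter
open scoped ENNReal NNReal Topology
open Pool.Agent.W6h79.LD

noncomputable section

namespace Pool.Agent.H624.LD

universe u

open Classical in
/-- (Mh4) without regularity -/
theorem mh4g (A : Type u) (hA : Cardinal.aleph0 < Cardinal.mk A)
    (Ω : Type u) [m0 : MeasurableSpace Ω] (μ : Measure Ω) (hμ : IsFiniteMeasure μ)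
    (H : ∀ 𝒞 : Set (Set Ω), (∀ C ∈ 𝒞, MeasurableSet C) → Cardinal.mk 𝒞 < Cardinal.mk A →
      ∃ R : Set Ω, MeasurableSet R ∧
        ∀ B, MeasurableSet[MeasurableSpace.generateFrom 𝒞] B →
          μ (R ∩ B) = (2⁻¹ : ℝ≥0∞) * μ B) :
    ∃ R : A → Set Ω, (∀ a, MeasurableSet (R a)) ∧
      ∀ (F : Finset A) (s : A → Bool),
        μ (⋂ a ∈ F, if s a = true then R a else (R a)ᶜ) = (2⁻¹ : ℝ≥0∞) ^ F.card * μ univ := by
  classical
  obtain ⟨_, _, hord⟩ := Cardinal.exists_ord_eq_type_lt A
  set pick : Set (Set Ω) → Set Ω := fun 𝒞 =>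
    if h : (∀ C ∈ 𝒞, MeasurableSet C) ∧ Cardinal.mk 𝒞 < Cardinal.mk A then
      (H 𝒞 h.1 h.2).choose else ∅ with hpick
  have pick_meas : ∀ 𝒞, MeasurableSet (pick 𝒞) := by
    intro 𝒞
    by_cases h : (∀ C ∈ 𝒞, MeasurableSet C) ∧ Cardinal.mk 𝒞 < Cardinal.mk A
    · simp only [hpick, dif_pos h]
      exact (H 𝒞 h.1 h.2).choose_spec.1
    · simp only [hpick, dif_neg h]
      exact MeasurableSet.empty
  have pick_spec : ∀ 𝒞 : Set (Set Ω), (∀ C ∈ 𝒞, MeasurableSet C) →
      Cardinal.mk 𝒞 < Cardinal.mk A → ∀ B, MeasurableSet[MeasurableSpace.generateFrom 𝒞] B →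
          μ (pick 𝒞 ∩ B) = (2⁻¹ : ℝ≥0∞) * μ B := by
    intro 𝒞 h1 h2 B hB
    have h : (∀ C ∈ 𝒞, MeasurableSet C) ∧ Cardinal.mk 𝒞 < Cardinal.mk A := ⟨h1, h2⟩
    simp only [hpick, dif_pos h]
    exact (H 𝒞 h.1 h.2).choose_spec.2 B hB
  have wf : WellFounded (fun a b : A => a < b) := wellFounded_lt
  set R : A → Set Ω := wf.fix (fun a ih => pick (range (fun b : {b // b < a} => ih b.1 b.2)))
    with hR
  have Req : ∀ a, R a = pick (range fun b : {b // b < a} => R b.1) := by
    intro a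
    rw [hR]
    exact wf.fix_eq _ a
  have Rmeas : ∀ a, MeasurableSet (R a) := fun a => by rw [Req a]; exact pick_meas _
  have Rspec : ∀ a B, MeasurableSet[MeasurableSpace.generateFrom
      (range fun b : {b // b < a} => R b.1)] B → μ (R a ∩ B) = (2⁻¹ : ℝ≥0∞) * μ B := by
    intro a B hB
    rw [Req a]
    refine pick_spec _ ?_ ?_ B hB
    · rintro C ⟨b, rfl⟩
      exact Rmeas b.1
    · refine lt_of_le_of_lt Cardinal.mk_range_le ?_
      exact Cardinal.mk_Iio_lt a hord
  refine ⟨R, Rmeas, fun F s => ?_⟩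
  induction F using Finset.induction_on_max with
  | empty => simp
  | insert a F hF ih =>
    have haF : a ∉ F := fun h => lt_irrefl _ (hF a h)
    set B : Set Ω := ⋂ x ∈ F, if s x = true then R x else (R x)ᶜ with hB
    have hBm : MeasurableSet[MeasurableSpace.generateFrom
        (range fun b : {b // b < a} => R b.1)] B := by
      rw [hB]
      refine MeasurableSet.biInter F.countable_toSet fun x hx => ?_
      have h1 : MeasurableSet[MeasurableSpace.generateFrom
        (range fun b : {b // b < a} => R b.1)] (R x) :=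
        MeasurableSpace.measurableSet_generateFrom ⟨⟨x, hF x hx⟩, rfl⟩
      split_ifs
      · exact h1
      · exact h1.compl
    have h2 := Rspec a B hBm
    have hBm' : MeasurableSet B := by
      rw [hB]
      refine MeasurableSet.biInter F.countable_toSet fun x hx => ?_
      split_ifs
      · exact Rmeas x
      · exact (Rmeas x).compl
    rw [Finset.set_biInter_insert, Finset.card_insert_of_notMem haF]
    have key : μ ((if s a = true then R a else (R a)ᶜ) ∩ B) = (2⁻¹ : ℝ≥0∞) * μ B := by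
      split_ifs
      · exact h2
      · have h3 : μ (B ∩ R a) + μ (B \ R a) = μ B := measure_inter_add_sdiff B (Rmeas a)
        rw [inter_comm B (R a), h2] at h3
        have h4 : (R a)ᶜ ∩ B = B \ R a := by
          ext x; simp [and_comm]
        rw [h4]
        have h5 : (2⁻¹ : ℝ≥0∞) * μ B + (2⁻¹ : ℝ≥0∞) * μ B = μ B := by
          rw [← add_mul, ENNReal.inv_two_add_inv_two, one_mul]
        have h6 : (2⁻¹ : ℝ≥0∞) * μ B ≠ ∞ :=
          ENNReal.mul_ne_top (by simp) (measure_ne_top μ B)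
        exact (ENNReal.add_right_inj h6).mp (h3.trans h5.symm)
    rw [← hB, key, ih, pow_succ]
    ring


/-- **(MHT)** -/
theorem sMHT (h2 : S_Mh2.{u}) (h3 : S_Mh3.{u}) : S_MHT.{u} := by
  intro A hA0 Ω _ μ E hT
  obtain ⟨hE, hpos, hfin, -, hthick⟩ := hT
  have hfm : IsFiniteMeasure (μ.restrict E) := ⟨by
    rw [Measure.restrict_apply_univ]; exact hfin⟩
  have hthick' : ∀ F, MeasurableSet F → 0 < μ.restrict E F →
      ¬ DensLt (Cardinal.mk A) (Lp ℝ 1 ((μ.restrict E).restrict F)) := by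
    intro F hF hpos
    rw [Measure.restrict_restrict hF]
    refine hthick (F ∩ E) inter_subset_right (hF.inter hE) ?_
    rwa [Measure.restrict_apply hF] at hpos
  obtain ⟨R, hRm, hR⟩ := mh4g A hA0 Ω (μ.restrict E) hfm (by
    intro 𝒞 h𝒞 hcard
    have hnow := h3 _ hA0 Ω (μ.restrict E) hfm hthick' 𝒞 h𝒞 hcard
    have hle : MeasurableSpace.generateFrom 𝒞 ≤ ‹MeasurableSpace Ω› :=
      MeasurableSpace.generateFrom_le h𝒞
    exact h2 Ω _ _ (μ.restrict E) hle hfm hnow)
  refine ⟨hE, hpos, hfin, R, hRm, ?_⟩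
  intro F s
  have h := hR F s
  have hm : MeasurableSet (⋂ a ∈ F, if s a = true then R a else (R a)ᶜ) := by
    refine Finset.measurableSet_biInter F (fun a _ => ?_)
    split_ifs
    · exact hRm a
    · exact (hRm a).compl
  rw [Measure.restrict_apply hm, Measure.restrict_apply_univ, inter_comm] at h
  exact h

end Pool.Agent.H624.LD
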