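import Pool.Agent.H624.LD.Stm
import Pool.Graph.R_pool_sql_team_seeded_9f66d723.W6h79.LD.All9

/-!
# Sufficiency for all types
-/

set_option autoImplicit false

open MeasureTheory Set Filter
open scoped ENNReal NNReal Topology
open Pool.Agent.W6h79.LD

noncomputable section

namespace Pool.Agent.H624.LD

universe u

open T12 in
/-- `L¹` of the coins is contractively complemented in `L¹` of a set with independent halving
sets. -/
theorem ce_halving (h3 : S_T3.{u, u}) (A : Type u) (Ω : Type u) [MeasurableSpace Ω]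
    (μ : Measure Ω) (E : Set Ω) (hH : Halving A μ E) :
    CE (Lp ℝ 1 (coins A)) (Lp ℝ 1 (μ.restrict E)) := by
  obtain ⟨hE', h0, h1, R, hR, hI⟩ := hH
  have hφ := IndAux.phi_measurable R hR
  have hmap := IndAux.map_phi μ E hE' h0 h1 R hR hI
  have hc0 : (μ E)⁻¹ ≠ 0 := ENNReal.inv_ne_zero.2 h1.ne
  have hc1 : (μ E)⁻¹ ≠ ∞ := ENNReal.inv_ne_top.2 h0.ne'
  have hmp : MeasurePreserving (IndAux.phi R) ((μ E)⁻¹ • μ.restrict E) (coins A) := by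
    refine ⟨hφ, ?_⟩
    rw [Measure.map_smul, hmap, smul_smul, ENNReal.inv_mul_cancel h0.ne' h1.ne, one_smul]
  have hfin : IsFiniteMeasure ((μ E)⁻¹ • μ.restrict E) := by
    refine ⟨?_⟩
    rw [Measure.smul_apply, Measure.restrict_apply_univ, smul_eq_mul]
    exact ENNReal.mul_lt_top hc1.lt_top h1
  have c1 := h3 Ω (A → Bool) _ (coins A) (IndAux.phi R) hfin hmp
  obtain ⟨e⟩ := sP5 Ω (μ.restrict E) (μ E)⁻¹ hc0 hc1
  have c2 := CE.of_equiv e.symm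
  exact CE.trans c1 c2

/-- A homogeneous atomless set of finite positive measure is thick. -/
theorem thick_of_hom {κ : Cardinal.{u}} {Ω : Type u} [MeasurableSpace Ω] {μ : Measure Ω}
    {E : Set Ω} (hE : MeasurableSet E) (h0 : 0 < μ E) (h1 : μ E < ∞)
    (hat : ∀ B ⊆ E, ¬ AtomSet μ B) (hom : HomOn κ μ E) : Thick κ μ E :=
  ⟨hE, h0, h1, hat, fun F hF hFm hFp => (hom F hF hFm hFp).2⟩

open W8 in
/-- (X8G) homogeneous sets against coins, all types. -/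
theorem x8g (hM : S_MHT.{u}) (A : Type u) (hA : Cardinal.aleph0 ≤ Cardinal.mk A)
    (Ω : Type u) [MeasurableSpace Ω] (μ : Measure Ω) (E : Set Ω)
    (hE : MeasurableSet E) (h0 : 0 < μ E) (h1 : μ E < ∞) (hat : ∀ B ⊆ E, ¬ AtomSet μ B)
    (hom : HomOn (Cardinal.mk A) μ E) :
    CE (XC A) (Lp ℝ 1 (μ.restrict E)) ∧ CE (Lp ℝ 1 (μ.restrict E)) (XC A) := by
  rcases hA.eq_or_lt with h | h
  · exact hX8 A (Or.inl h.symm) Ω μ E hE h0 h1 hat hom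
  · have hinf : Infinite A := Cardinal.infinite_iff.2 hA
    obtain ⟨⟨D, hD, hDc⟩, hdens⟩ := hom E subset_rfl hE h0
    have hfin : IsFiniteMeasure (μ.restrict E) := ⟨by
      rw [Measure.restrict_apply_univ]
      exact h1⟩
    have hne : μ.restrict E ≠ 0 := by
      intro h
      have h1 : μ.restrict E univ = 0 := by rw [h]; rfl
      rw [Measure.restrict_apply_univ] at h1
      exact h0.ne' h1
    refine ⟨ce_halving sT3 A Ω μ E (hM A h Ω μ E (thick_of_hom hE h0 h1 hat hom)), ?_⟩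
    obtain ⟨ν, hν, ⟨e⟩⟩ := sT6 A hinf Ω (μ.restrict E) hfin hne ⟨D, hD, hDc⟩
    exact ceTrans (ceEquiv e) (hT5p A hinf ν hν)

open PW11 in
/-- (X11G) counting pieces, all types: the piece `p` satisfies the counting condition if the
condition holds at its type. -/
theorem x11g (Ω : Type u) [MeasurableSpace Ω] (μ : Measure Ω)
    (𝓔 : Set (Set Ω)) (hM : MaxDec μ 𝓔)
    (t : {E : 𝓔 // ¬ AtomSet μ (E : Set Ω)} → Cardinal.{u})
    (ht : ∀ p, HomOn (t p) μ (p.1 : Set Ω)) (κ : Cardinal.{u}) (hc : CondT κ μ)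
    (p : {E : 𝓔 // ¬ AtomSet μ (E : Set Ω)}) (hp : κ ≤ t p) :
    (2 : Cardinal.{u}) ^ κ ≤ Cardinal.mk {q // κ ≤ t q} := by
  obtain ⟨h1, h2, h3⟩ := hM
  have hnat : ∀ q : {E : 𝓔 // ¬ AtomSet μ (E : Set Ω)}, ∀ A ⊆ (q.1 : Set Ω), ¬ AtomSet μ A := by
    intro q
    rcases (h1 q.1.1 q.1.2).2.2.2 with h | h
    · exact absurd h q.2
    · exact h
  rcases hc with h | h
  · exfalso
    refine h p.1.1 ⟨(h1 p.1.1 p.1.2).1, (h1 p.1.1 p.1.2).2.1, (h1 p.1.1 p.1.2).2.2.1, hnat p, ?_⟩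
    rintro F hF hFm hFp ⟨D, hD, hDc⟩
    exact (ht p F hF hFm hFp).2 ⟨D, hD, hDc.trans_le hp⟩
  · have hcov : Meets κ μ (range fun q : {q : {E : 𝓔 // ¬ AtomSet μ (E : Set Ω)} //
        κ ≤ t q} => (q.1.1 : Set Ω)) := by
      refine ⟨?_, ?_⟩
      · rintro _ ⟨q, rfl⟩
        exact ⟨(h1 _ q.1.1.2).1, (h1 _ q.1.1.2).2.2.1⟩
      · rintro E ⟨hE, hE0, hfin, hEat, hEth⟩
        obtain ⟨D, hD, hpos⟩ := h3 E hE hE0 hfin
        have hDat : ¬ AtomSet μ D := fun hDat =>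
          hEat (E ∩ D) inter_subset_left (atom_inter hE hDat hpos)
        refine ⟨D, ⟨⟨⟨⟨D, hD⟩, hDat⟩, ?_⟩, rfl⟩, hpos⟩
        by_contra hlt
        rw [not_le] at hlt
        obtain ⟨S, hS, hSc⟩ := (ht ⟨⟨D, hD⟩, hDat⟩ (E ∩ D) inter_subset_right
          (hE.inter (h1 D hD).1) hpos).1
        exact hEth (E ∩ D) inter_subset_left (hE.inter (h1 D hD).1) hpos
          ⟨S, hS, hSc.trans_lt hlt⟩
    exact (h _ hcov).trans Cardinal.mk_range_le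

/-- Assembly of the sufficiency from the abstract comparison of the nonatomic pieces. -/
theorem suf_core (Ω : Type u) [MeasurableSpace Ω] (μ : Measure Ω) (𝓔 : Set (Set Ω))
    (hM : MaxDec μ 𝓔)
    (hZ : ∃ (Z : Type u) (_ : NormedAddCommGroup Z) (_ : NormedSpace ℝ Z) (_ : CompleteSpace Z),
      Nonempty (lp (fun i : {E : 𝓔 // ¬ AtomSet μ (E : Set Ω)} =>
        Lp ℝ 1 (μ.restrict (i.1 : Set Ω))) 1 ≃L[ℝ] StrongDual ℝ Z)) :
    IsoToDual ℝ (Lp ℝ 1 μ) := by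
  obtain ⟨e2⟩ := sR2 Ω μ 𝓔 hM
  obtain ⟨hE, hdis, hmax⟩ := hM
  let p : 𝓔 → Prop := fun E => ¬ AtomSet μ (E : Set Ω)
  obtain ⟨e5⟩ := sL5p 𝓔 p (fun E : 𝓔 => Lp ℝ 1 (μ.restrict (E : Set Ω)))
  obtain ⟨Z, i1, i2, i3, ⟨eZ⟩⟩ := hZ
  have hat : ∀ i : {E : 𝓔 // ¬ p E}, Nonempty (Lp ℝ 1 (μ.restrict (i.1 : Set Ω)) ≃ₗᵢ[ℝ] ℝ) :=
    fun i => sR3 Ω μ (i.1 : Set Ω) (not_not.1 i.2) (hE i.1 i.1.2).2.2.1
  obtain ⟨eA⟩ := sL1 {E : 𝓔 // ¬ p E} (fun i => Lp ℝ 1 (μ.restrict (i.1 : Set Ω)))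
    (fun _ => ℝ) hat
  obtain ⟨Y, j1, j2, j3, ⟨eY⟩⟩ := sK2 {E : 𝓔 // ¬ p E}
  refine ⟨Z × Y, inferInstance, inferInstance, inferInstance, ⟨?_⟩⟩
  exact ((e2.toContinuousLinearEquiv.trans e5).trans
    (eZ.prodCongr (eA.trans eY).toContinuousLinearEquiv)).trans
    (ContinuousLinearMap.coprodEquivL (𝕜 := ℝ) (E := Z) (F := Y) (G := ℝ) ℝ)

/-- The data of a decomposition with types. -/
theorem types (Ω : Type u) [MeasurableSpace Ω] (μ : Measure Ω) (hM : S_MHT.{u}) :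
    ∃ (𝓔 : Set (Set Ω)) (t : {E : 𝓔 // ¬ AtomSet μ (E : Set Ω)} → Cardinal.{u}), MaxDec μ 𝓔 ∧
      (∀ p, Cardinal.aleph0 ≤ t p) ∧ (∀ p, HomOn (t p) μ (p.1 : Set Ω)) ∧
      ∀ p, CE (XC (t p).out) (Lp ℝ 1 (μ.restrict (p.1 : Set Ω))) ∧
        CE (Lp ℝ 1 (μ.restrict (p.1 : Set Ω))) (XC (t p).out) := by
  obtain ⟨𝓔, hMd, hhom⟩ := sW7 Ω μ
  have hM' := hMd
  obtain ⟨hE, hdis, hmax⟩ := hM'
  have hex : ∀ i : {E : 𝓔 // ¬ AtomSet μ (E : Set Ω)}, ∃ κ : Cardinal.{u},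
      Cardinal.aleph0 ≤ κ ∧ HomOn κ μ (i.1 : Set Ω) := fun i => hhom i.1 i.1.2 i.2
  choose t ht0 ht using hex
  have hfree : ∀ i : {E : 𝓔 // ¬ AtomSet μ (E : Set Ω)}, ∀ A ⊆ (i.1 : Set Ω), ¬ AtomSet μ A := by
    intro i
    rcases (hE i.1 i.1.2).2.2.2 with h | h
    · exact absurd h i.2
    · exact h
  refine ⟨𝓔, t, hMd, ht0, ht, fun i => ?_⟩
  have hcard : Cardinal.mk (t i).out = t i := Cardinal.mk_out (t i)
  exact x8g hM (t i).out (by rw [hcard]; exact ht0 i) Ω μ (i.1 : Set Ω) (hE i.1 i.1.2).1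
    (hE i.1 i.1.2).2.1 (hE i.1 i.1.2).2.2.1 (hfree i) (by rw [hcard]; exact ht i)

/-- Sufficiency of the condition at all infinite cardinals. -/
theorem sufG (hM : S_MHT.{u}) (Ω : Type u) [MeasurableSpace Ω] (μ : Measure Ω)
    (hc : ∀ κ : Cardinal.{u}, Cardinal.aleph0 ≤ κ → CondT κ μ) : IsoToDual ℝ (Lp ℝ 1 μ) := by
  obtain ⟨𝓔, t, hMd, ht0, ht, hCE⟩ := types Ω μ hM
  exact suf_core Ω μ 𝓔 hMd (hW10 {E : 𝓔 // ¬ AtomSet μ (E : Set Ω)} t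
    (fun i => Lp ℝ 1 (μ.restrict (i.1 : Set Ω))) ht0 hCE
    (fun p => x11g Ω μ 𝓔 hMd t ht (t p) (hc _ (ht0 p)) p le_rfl))

/-- Sufficiency under the continuum hypothesis. -/
theorem sufCH (hM : S_MHT.{u}) (hW : S_WCH.{u}) (hCH : Cardinal.aleph.{u} 1 = Cardinal.continuum)
    (Ω : Type u) [MeasurableSpace Ω] (μ : Measure Ω)
    (hc : ∀ κ : Cardinal.{u}, Cardinal.aleph0 ≤ κ → κ ≠ Cardinal.aleph 1 → CondT κ μ) :
    IsoToDual ℝ (Lp ℝ 1 μ) := by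
  obtain ⟨𝓔, t, hMd, ht0, ht, hCE⟩ := types Ω μ hM
  refine suf_core Ω μ 𝓔 hMd ?_
  have h01 : Cardinal.aleph0.{u} < Cardinal.aleph 1 := Cardinal.aleph0_lt_aleph_one
  by_cases hbig : ∃ q, Cardinal.aleph 1 < t q
  · obtain ⟨q, hq⟩ := hbig
    refine hW10 {E : 𝓔 // ¬ AtomSet μ (E : Set Ω)} t
      (fun i => Lp ℝ 1 (μ.restrict (i.1 : Set Ω))) ht0 hCE (fun p => ?_)
    by_cases hp : t p = Cardinal.aleph 1
    · have h1 := x11g Ω μ 𝓔 hMd t ht (t q) (hc _ (ht0 q) hq.ne') q le_rfl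
      have h2 : (2 : Cardinal.{u}) ^ t p ≤ 2 ^ t q := by
        refine Cardinal.power_le_power_left two_ne_zero ?_
        rw [hp]; exact hq.le
      refine h2.trans (h1.trans ?_)
      refine Cardinal.mk_le_of_injective
        (f := fun x : {x // t q ≤ t x} => (⟨x.1, ?_⟩ : {x // t p ≤ t x})) ?_
      · rw [hp]; exact hq.le.trans x.2
      · intro a b hab
        have h9 := congrArg Subtype.val hab
        exact Subtype.ext h9
    · exact x11g Ω μ 𝓔 hMd t ht (t p) (hc _ (ht0 p) hp) p le_rfl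
  · push Not at hbig
    have htt : ∀ p, t p = Cardinal.aleph0 ∨ t p = Cardinal.aleph 1 := by
      intro p
      rcases (hbig p).eq_or_lt with h | h
      · exact Or.inr h
      · left
        refine le_antisymm ?_ (ht0 p)
        rw [← Order.lt_succ_iff]
        rwa [Cardinal.succ_aleph0]
    rcases isEmpty_or_nonempty {E : 𝓔 // ¬ AtomSet μ (E : Set Ω)} with hemp | ⟨⟨p⟩⟩
    · refine hW10 {E : 𝓔 // ¬ AtomSet μ (E : Set Ω)} t
        (fun i => Lp ℝ 1 (μ.restrict (i.1 : Set Ω))) ht0 hCE (fun p => (hemp.false p).elim)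
    · refine hW hCH _ t (fun i => Lp ℝ 1 (μ.restrict (i.1 : Set Ω))) htt hCE ?_
      have h1 := x11g Ω μ 𝓔 hMd t ht Cardinal.aleph0 (hc _ le_rfl h01.ne) p (ht0 p)
      rw [Cardinal.two_power_aleph0] at h1
      exact h1.trans (Cardinal.mk_subtype_le _)

end Pool.Agent.H624.LD
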