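import Pool.Agent.H624.LD.Stm
import Pool.Graph.R_pool_sql_team_seeded_9f66d723.W6h79.LD.X3

/-!
# (X3MA) `L¹({0,1}^{ℵ₁}) ⊂ Y*` implies `ℓ¹(ℵ₁) ⊂ Y` under Martin's axiom
-/

set_option autoImplicit false

open MeasureTheory Set Filter
open scoped ENNReal NNReal Topology
open Pool.Agent.W6h79.LD

noncomputable section

namespace Pool.Agent.H624.LD

open PD5 PX3c in
/-- the value of a density on a coordinate, in terms of the two halves -/
theorem avg_single {A : Type*} (f : (A → Bool) → ℝ) (hf : Measurable f)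
    (hb : ∃ C, ∀ x, |f x| ≤ C) (a : A) (s : A → Bool) :
    sgn (s a) * ((avg f {a} s - avg f {a} (fun b => !s b)) / 2) =
      ∫ x, f x * sgn (x a) ∂(coins A) := by
  obtain ⟨C, hC⟩ := hb
  have hfi : Integrable f (coins A) :=
    Integrable.of_bound hf.aestronglyMeasurable C (Eventually.of_forall hC)
  have hT : MeasurableSet {x : A → Bool | x a = true} := by
    have h0 : Measurable fun x : A → Bool => x a := measurable_pi_apply a
    exact h0 (measurableSet_singleton true)
  have h1 : ∀ b : Bool, (cyl {a} (fun _ => b) : Set (A → Bool)) = {x | x a = b} := by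
    intro b
    ext x
    simp [cyl]
  have hcomp : {x : A → Bool | x a = true}ᶜ = {x | x a = false} := by
    ext x
    simp
  have h2 : ∫ x, f x * sgn (x a) ∂(coins A) =
      ∫ x in {x : A → Bool | x a = true}, f x ∂(coins A) -
        ∫ x in {x : A → Bool | x a = false}, f x ∂(coins A) := by
    have hi : Integrable (fun x : A → Bool => f x * sgn (x a)) (coins A) := by
      refine hfi.mul_bdd (c := 1) (measurable_sgn_coord a).aestronglyMeasurable ?_
      exact Eventually.of_forall fun x => by rw [Real.norm_eq_abs, abs_sgn]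
    rw [← integral_add_compl hT hi, hcomp, sub_eq_add_neg]
    congr 1
    · refine setIntegral_congr_fun hT fun x hx => ?_
      have : x a = true := hx
      simp [this, sgn]
    · rw [← integral_neg, ← hcomp]
      refine setIntegral_congr_fun hT.compl fun x hx => ?_
      have : x a = false := by simpa using hx
      simp [this, sgn]
  have h3 : ∀ t : A → Bool, avg f {a} t = 2 * ∫ x in {x : A → Bool | x a = t a}, f x ∂(coins A) := by
    intro t
    have : (cyl {a} t : Set (A → Bool)) = {x | x a = t a} := by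
      ext x
      simp [cyl]
    rw [avg, this]
    simp
  rw [h2, h3, h3]
  cases hs : s a
  · simp only [sgn, Bool.not_false]
    simp
    ring
  · simp only [sgn, Bool.not_true]
    simp
    ring

open PD5 PX3c in
/-- **(X3MA)** -/
theorem sX3MA.{u, v} (hP : S_PRE.{u}) (hC : S_CCC.{u}) (h2 : S_D2.{u}) (h3 : S_D3.{u}) :
    S_X3MA.{u, v} := by
  classical
  intro hMA A hA Y _ _ T c hc hT
  choose y hy1 hy2 using PX3c.exists_y T c hc hT
  let L : A → Lp ℝ 1 (coins A) →L[ℝ] ℝ := fun a =>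
    (ContinuousLinearMap.apply ℝ ℝ (y a)).comp T
  have hL : ∀ a g, L a g = T g (y a) := fun a g => rfl
  have hLn : ∀ a, ‖L a‖ ≤ ‖T‖ := by
    intro a
    refine ContinuousLinearMap.opNorm_le_bound (L a) (norm_nonneg T) fun g => ?_
    rw [hL]
    calc ‖T g (y a)‖ ≤ ‖T g‖ * ‖y a‖ := (T g).le_opNorm _
      _ ≤ ‖T g‖ * 1 := mul_le_mul_of_nonneg_left (hy1 a) (norm_nonneg _)
      _ = ‖T g‖ := mul_one _
      _ ≤ ‖T‖ * ‖g‖ := T.le_opNorm _
  choose f hfm hfb hfi using fun a => h3 (A → Bool) (coins A) inferInstance (L a)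
  have hfb' : ∀ a x, |f a x| ≤ ‖T‖ := fun a x => (hfb a x).trans (hLn a)
  have hne : ∀ a, c / 2 ≤ ∫ x, f a x * sgn (x a) ∂(coins A) := by
    intro a
    have h5 := hfi a ((memLp_sgn a).toLp _)
    have h6 : ∫ x, f a x * ((memLp_sgn a).toLp _ : Lp ℝ 1 (coins A)) x ∂(coins A) =
        ∫ x, f a x * sgn (x a) ∂(coins A) := by
      refine integral_congr_ae ?_
      filter_upwards [(memLp_sgn a).coeFn_toLp] with x hx
      rw [hx]
    rw [← h6, ← h5, hL]
    exact hy2 a
  choose I hIc hId using fun a => h2 A (f a) (hfm a)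
  obtain ⟨B, hBc, hB⟩ := hP hMA A hA (Good (c / 4) f) (by intro s a ha; simp at ha) (by
      intro a s b hb
      rw [Finset.mem_singleton] at hb
      subst hb
      rw [avg_single (f b) (hfm b) ⟨_, hfb' b⟩ b s]
      have := hne b
      linarith) (by
      intro S hS hSc
      obtain ⟨F, hF, G, hG, hne, hFG⟩ := hC A f I (c / 4) ‖T‖ hfm hfb' hIc hId S hS hSc
      exact ⟨F, hF, G, hG, hne, F ∪ G, hFG, Finset.subset_union_left, Finset.subset_union_right⟩)
  have hBcard : Cardinal.mk B = Cardinal.mk A := by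
    refine le_antisymm (Cardinal.mk_set_le B) ?_
    rw [hA, ← Cardinal.succ_aleph0, Order.succ_le_iff]
    rw [← not_le, Cardinal.le_aleph0_iff_set_countable]
    exact hBc
  obtain ⟨e⟩ := Cardinal.eq.1 hBcard.symm
  have hinj : Function.Injective fun i => (e i : A) :=
    Subtype.val_injective.comp e.injective
  have hTn : 0 ≤ ‖T‖ := norm_nonneg T
  refine ⟨fun i => y (e i), c / 2 / (2 * ‖T‖ + 1), by
    apply div_pos (by positivity) (by linarith), fun i => hy1 _, fun J a => ?_⟩
  let s : A → Bool := Function.extend (fun i => (e i : A)) (fun i => decide (0 ≤ a i))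
    (fun _ => false)
  have hs : ∀ i, s (e i) = decide (0 ≤ a i) := fun i =>
    hinj.extend_apply (fun i => decide (0 ≤ a i)) (fun _ => false) i
  let F : Finset A := J.image fun i => (e i : A)
  have hF : (↑F : Set A) ⊆ B := by
    intro b hb
    obtain ⟨i, -, rfl⟩ := Finset.mem_image.1 (Finset.mem_coe.1 hb)
    exact (e i).2
  obtain ⟨H, hH, hFH⟩ := hB F hF
  have hm1 := meas_CY H s
  have hm2 := meas_CY H fun b => !s b
  have hp1 : 0 < coins A (CY H s) := by
    rw [coins_CY]
    exact ENNReal.pow_pos (ENNReal.inv_pos.2 ENNReal.ofNat_ne_top) _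
  have hp2 : 0 < coins A (CY H fun b => !s b) := by
    rw [coins_CY]
    exact ENNReal.pow_pos (ENNReal.inv_pos.2 ENNReal.ofNat_ne_top) _
  let g : Lp ℝ 1 (coins A) := nu (coins A) _ hm1 - nu (coins A) _ hm2
  have hg : ‖g‖ ≤ 2 := by
    calc ‖g‖ ≤ ‖nu (coins A) _ hm1‖ + ‖nu (coins A) _ hm2‖ := norm_sub_le _ _
      _ ≤ 1 + 1 := add_le_add (norm_nu _ _ _ hp1) (norm_nu _ _ _ hp2)
      _ = 2 := by norm_num
  have hval : ∀ i ∈ J, c / 2 * |a i| ≤ a i * T g (y (e i)) := by
    intro i hi
    have hiH : (e i : A) ∈ H := hFH (Finset.mem_image_of_mem _ hi)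
    have h7 : T g (y (e i)) = avg (f (e i)) H s - avg (f (e i)) H (fun b => !s b) := by
      rw [← hL, show g = nu (coins A) _ hm1 - nu (coins A) _ hm2 from rfl, map_sub, hfi, hfi,
        int_nu, int_nu, real_CY, real_CY]
      rfl
    have h9 := hH s (e i) hiH
    rw [h7]
    by_cases h0 : 0 ≤ a i
    · have hsi : s (e i) = true := by rw [hs]; simpa using h0
      rw [hsi] at h9
      have h10 : sgn true = 1 := by simp [sgn]
      rw [h10] at h9
      rw [abs_of_nonneg h0]
      nlinarith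
    · have hsi : s (e i) = false := by rw [hs]; simpa using h0
      push Not at h0
      rw [hsi] at h9
      have h10 : sgn false = -1 := by simp [sgn]
      rw [h10] at h9
      rw [abs_of_neg h0]
      nlinarith
  have hsum : c / 2 * ∑ i ∈ J, |a i| ≤ T g (∑ i ∈ J, a i • y (e i)) := by
    rw [map_sum, Finset.mul_sum]
    refine Finset.sum_le_sum fun i hi => ?_
    rw [map_smul, smul_eq_mul]
    exact hval i hi
  have hup : T g (∑ i ∈ J, a i • y (e i)) ≤ (2 * ‖T‖ + 1) * ‖∑ i ∈ J, a i • y (e i)‖ := by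
    calc T g (∑ i ∈ J, a i • y (e i)) ≤ ‖T g (∑ i ∈ J, a i • y (e i))‖ := le_abs_self _
      _ ≤ ‖T g‖ * ‖∑ i ∈ J, a i • y (e i)‖ := (T g).le_opNorm _
      _ ≤ (2 * ‖T‖ + 1) * ‖∑ i ∈ J, a i • y (e i)‖ := by
        refine mul_le_mul_of_nonneg_right ?_ (norm_nonneg _)
        calc ‖T g‖ ≤ ‖T‖ * ‖g‖ := T.le_opNorm _
          _ ≤ ‖T‖ * 2 := mul_le_mul_of_nonneg_left hg hTn
          _ ≤ 2 * ‖T‖ + 1 := by linarith
  rw [div_mul_eq_mul_div, div_le_iff₀ (by linarith : (0:ℝ) < 2 * ‖T‖ + 1)]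
  calc c / 2 * ∑ i ∈ J, |a i| ≤ _ := hsum
    _ ≤ _ := hup
    _ = _ := by ring

end Pool.Agent.H624.LD
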