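import Pool.Agent.H624.LD.X3G
import Pool.Agent.H624.LD.X3MA
import Pool.Agent.H624.LD.MHT
import Pool.Agent.H624.LD.KCG
import Pool.Agent.H624.LD.HAG
import Pool.Agent.H624.LD.NecG
import Pool.Agent.H624.LD.SufG
import Pool.Agent.H736.LD.PRE
import Pool.Agent.H736.LD.KH1
import Pool.Agent.H736.LD.KH5
import Pool.Agent.H645.LD.KH3
import Pool.Agent.H645.LD.KH4
import Pool.Agent.H97.LD.CCC
import Pool.Agent.H675.LD.HAJ
import Pool.Agent.H860.LD.ZDL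
import Pool.Agent.H597.LD.K12
import Pool.Agent.H553.LD.WCH

/-!
# Assembly
-/

set_option autoImplicit false

open MeasureTheory Set Filter
open scoped ENNReal NNReal Topology
open Pool.Agent.W6h79.LD

noncomputable section

namespace Pool.Agent.H624.LD

universe u

theorem not_densLt_aleph0 (X : Type u) [NormedAddCommGroup X] [NormedSpace ℝ X] [Nontrivial X] :
    ¬ DensLt Cardinal.aleph0 X := by
  rintro ⟨D, hD, hDc⟩
  have hfin : D.Finite := Cardinal.lt_aleph0_iff_set_finite.1 hDc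
  have h1 : closure D = D := hfin.isClosed.closure_eq
  have h2 : D = univ := by rw [← h1]; exact hD.closure_eq
  have h3 : (univ : Set X).Finite := h2 ▸ hfin
  have : Infinite X := by
    obtain ⟨x, hx⟩ := exists_ne (0 : X)
    exact Infinite.of_injective (fun r : ℝ => r • x) (smul_left_injective ℝ hx)
  exact Set.infinite_univ h3

theorem nontrivial_L1 {Ω : Type u} [MeasurableSpace Ω] (μ : Measure Ω) (h : 0 < μ univ)
    (h1 : μ univ < ∞) : Nontrivial (Lp ℝ 1 μ) := by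
  have hm : μ (univ : Set Ω) ≠ ∞ := h1.ne
  refine ⟨⟨indicatorConstLp 1 MeasurableSet.univ hm (1 : ℝ), 0, ?_⟩⟩
  intro h0
  have h2 := congrArg norm h0
  rw [norm_indicatorConstLp one_ne_zero ENNReal.one_ne_top, norm_zero] at h2
  have h3 : 0 < μ.real univ := ENNReal.toReal_pos h.ne' hm
  simp [h3.ne'] at h2

/-- The condition at `ℵ₀`. -/
theorem condT_aleph0 {Ω : Type u} [MeasurableSpace Ω] (μ : Measure Ω)
    (h : PurelyAtomic μ ∨ ∀ 𝓢 : Set (Set Ω), Covers μ 𝓢 → Cardinal.continuum ≤ Cardinal.mk 𝓢) :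
    CondT Cardinal.aleph0 μ := by
  rcases h with h | h
  · left
    rintro E ⟨hE, h0, h1, hat, -⟩
    obtain ⟨A, hA, hAt⟩ := h E hE h0 h1
    exact hat A hA hAt
  · right
    intro 𝓢 hS
    rw [Cardinal.two_power_aleph0]
    refine h 𝓢 ⟨hS.1, fun E hE h0 h1 hn => ?_⟩
    by_contra hcon
    push Not at hcon
    obtain ⟨S, hS', hp⟩ := hS.2 E ⟨hE, h0, h1, hcon, fun F hF hFm hFp => by
      have hF1 : μ F < ∞ := (measure_mono hF).trans_lt h1
      have := nontrivial_L1 (μ.restrict F) (by rw [Measure.restrict_apply_univ]; exact hFp)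
        (by rw [Measure.restrict_apply_univ]; exact hF1)
      exact not_densLt_aleph0 _⟩
    exact hp.ne' (hn S hS')

/-- Necessity at all infinite cardinals but `ℵ₁`. -/
theorem nec_all (Ω : Type u) [MeasurableSpace Ω] (μ : Measure Ω)
    (hd : IsoToDual ℝ (Lp ℝ 1 μ) ∨ IsoToDual ℂ (Lp ℂ 1 μ)) (κ : Cardinal.{u})
    (hκ : Cardinal.aleph0 ≤ κ) (hκ1 : κ ≠ Cardinal.aleph 1) : CondT κ μ := by
  rcases hκ.eq_or_lt with h | h
  · rw [← h]
    exact condT_aleph0 μ (hNec9 Ω μ hd).1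
  · have h1 : Cardinal.aleph 1 < κ := by
      refine lt_of_le_of_ne ?_ hκ1.symm
      rw [← Cardinal.succ_aleph0, Order.succ_le_iff]
      exact h
    exact necG sDA (sEA sE1A) (sHAG sHA0) sI sJ sKCG sInd (sMHT (sMh2 sMh2a) sMh3) κ h
      (sX3G H675.LD.sHAJ sD2 sD3 sX2 κ.out (by rw [Cardinal.mk_out]; exact h1)) Ω μ hd

/-- Necessity at `ℵ₁` under Martin's axiom. -/
theorem nec_MA (hMA : MartinAxiom) (Ω : Type u) [MeasurableSpace Ω]
    (μ : Measure Ω) (hd : IsoToDual ℝ (Lp ℝ 1 μ) ∨ IsoToDual ℂ (Lp ℂ 1 μ)) :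
    CondT (Cardinal.aleph 1) μ :=
  necG sDA (sEA sE1A) (sHAG sHA0) sI sJ sKCG sInd (sMHT (sMh2 sMh2a) sMh3) _
    Cardinal.aleph0_lt_aleph_one
    (sX3MA H736.LD.sPRE H97.LD.sCCC sD2 sD3 hMA _ (Cardinal.mk_out _)) Ω μ hd

/-- Sufficiency. -/
theorem suf_all (Ω : Type u) [MeasurableSpace Ω] (μ : Measure Ω)
    (hc : ∀ κ : Cardinal.{u}, Cardinal.aleph0 ≤ κ → CondT κ μ) :
    IsoToDual ℝ (Lp ℝ 1 μ) ∧ IsoToDual ℂ (Lp ℂ 1 μ) := by
  have h := sufG (sMHT (sMh2 sMh2a) sMh3) Ω μ hc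
  exact ⟨h, complexify sCX μ h⟩

theorem k12 : S_K12.{u} :=
  H597.LD.sK12 H736.LD.sKH1 H736.LD.sKH2 H645.LD.sKH3 H645.LD.sKH4 H736.LD.sKH5 H860.LD.sZDL

/-- Sufficiency under CH. -/
theorem suf_CH (hCH : Cardinal.aleph.{u} 1 = Cardinal.continuum)
    (Ω : Type u) [MeasurableSpace Ω] (μ : Measure Ω)
    (hc : ∀ κ : Cardinal.{u}, Cardinal.aleph0 ≤ κ → κ ≠ Cardinal.aleph 1 → CondT κ μ) :
    IsoToDual ℝ (Lp ℝ 1 μ) ∧ IsoToDual ℂ (Lp ℂ 1 μ) := by
  have h := sufCH (sMHT (sMh2 sMh2a) sMh3) (H553.LD.WCH.sWCH k12) hCH Ω μ hc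
  exact ⟨h, complexify sCX μ h⟩

end Pool.Agent.H624.LD
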