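import Pool.Graph.R_pool_sql_team_seeded_9f66d723.W6h79.LD.Defs9
import Pool.Graph.R_pool_sql_team_seeded_9f66d723.W6h79.LD.Defs5

/-!
# MP_3844f5_an : `L¹(μ)` isomorphic to a dual space, all measures

Definitions and exact statements of the pieces.  The library (`R_..._9f66d723/W6h79/LD`) has the
characterisation for measures whose homogeneous parts have type `ℵ₀` or a regular cardinal above
`ℵ₁`.  Here: all types; singular cardinals; the type `ℵ₁` under Martin's axiom and under CH.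
-/

set_option autoImplicit false

open MeasureTheory Set Filter
open scoped ENNReal NNReal Topology
open Pool.Agent.W6h79.LD

noncomputable section

namespace Pool.Agent.H624.LD

/-! ### The condition -/

/-- `E` has finite positive measure, contains no atom, and `L¹(μ|F)` has density character at
least `κ` for every measurable `F ⊆ E` of positive measure. -/
def Thick.{u} (κ : Cardinal.{u}) {Ω : Type u} [MeasurableSpace Ω] (μ : Measure Ω)
    (E : Set Ω) : Prop :=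
  MeasurableSet E ∧ 0 < μ E ∧ μ E < ∞ ∧ (∀ B ⊆ E, ¬ AtomSet μ B) ∧
    ∀ F ⊆ E, MeasurableSet F → 0 < μ F → ¬ DensLt κ (Lp ℝ 1 (μ.restrict F))

/-- `𝓢` consists of sets of finite measure, and every `κ`-thick set meets a member of `𝓢` in a set
of positive measure. -/
def Meets.{u} (κ : Cardinal.{u}) {Ω : Type u} [MeasurableSpace Ω] (μ : Measure Ω)
    (𝓢 : Set (Set Ω)) : Prop :=
  (∀ S ∈ 𝓢, MeasurableSet S ∧ μ S < ∞) ∧ ∀ E, Thick κ μ E → ∃ S ∈ 𝓢, 0 < μ (E ∩ S)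

/-- The condition at `κ`. -/
def CondT.{u} (κ : Cardinal.{u}) {Ω : Type u} [MeasurableSpace Ω] (μ : Measure Ω) : Prop :=
  (∀ E, ¬ Thick κ μ E) ∨ ∀ 𝓢 : Set (Set Ω), Meets κ μ 𝓢 → 2 ^ κ ≤ Cardinal.mk 𝓢

/-- `L¹({0,1}^A) ⊂ Y*` implies `ℓ¹(A) ⊂ Y`. -/
def L1P.{u, v} (A : Type u) : Prop := ∀ (Y : Type v) [NormedAddCommGroup Y] [NormedSpace ℝ Y]
    (T : Lp ℝ 1 (coins A) →L[ℝ] StrongDual ℝ Y) (c : ℝ), 0 < c → (∀ f, c * ‖f‖ ≤ ‖T f‖) →
    ∃ (y : A → Y) (δ : ℝ), 0 < δ ∧ (∀ i, ‖y i‖ ≤ 1) ∧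
      ∀ (J : Finset A) (a : A → ℝ), δ * ∑ i ∈ J, |a i| ≤ ‖∑ i ∈ J, a i • y i‖

/-! ### ZFC pieces -/

/-- (HAJ) Hajnal's free set theorem for countable set mappings, all cardinals above `ℵ₁`
(regular or singular). -/
def S_HAJ.{u} : Prop := ∀ (A : Type u), Cardinal.aleph 1 < Cardinal.mk A → ∀ I : A → Set A,
    (∀ a, (I a).Countable) →
    ∃ B : Set A, Cardinal.mk B = Cardinal.mk A ∧ ∀ a ∈ B, ∀ b ∈ B, a ≠ b → a ∉ I b

/-- (X3G) -/
def S_X3G.{u, v} : Prop := ∀ (A : Type u), Cardinal.aleph 1 < Cardinal.mk A → L1P.{u, v} A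

/-- (HAG) One member lives essentially on finitely many members of `𝓢` and is bounded there. -/
def S_HAG.{u} : Prop := ∀ (Ω : Type u) [MeasurableSpace Ω] (μ : Measure Ω) (𝓢 : Set (Set Ω))
    (A : Type u), Cardinal.aleph0 < Cardinal.mk A → Meets (Cardinal.mk A) μ 𝓢 →
    ∀ (z : A → Lp ℝ 1 μ) (C : ℝ),
    (∀ (J : Finset A) (ε : A → ℝ), (∀ k, |ε k| ≤ 1) →
      ‖∑ k ∈ J, ε k • z k‖ ≤ C * Real.sqrt J.card) →
    ∀ η : ℝ, 0 < η → ∃ (k : A) (F : Finset (Set Ω)) (M : ℕ), (↑F : Set (Set Ω)) ⊆ 𝓢 ∧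
      ∫ ω in ((⋃₀ (↑F : Set (Set Ω))) ∩ {ω | |z k ω| ≤ (M : ℝ)})ᶜ, |z k ω| ∂μ ≤ η

/-- (MHT) Thick sets carry `κ` independent halving sets, any uncountable `κ`. -/
def S_MHT.{u} : Prop := ∀ (A : Type u), Cardinal.aleph0 < Cardinal.mk A →
    ∀ (Ω : Type u) [MeasurableSpace Ω] (μ : Measure Ω) (E : Set Ω),
    Thick (Cardinal.mk A) μ E → Halving A μ E

/-- (KCG) Doubling a cover. -/
def S_KCG.{u} : Prop := ∀ (κ : Cardinal.{u}), Cardinal.aleph0 ≤ κ →
    ∀ (Ω : Type u) [MeasurableSpace Ω] (μ : Measure Ω) (𝓢 : Set (Set Ω)), Meets κ μ 𝓢 →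
    Meets κ (μ.map (Sum.inl : Ω → Ω ⊕ Ω) + μ.map (Sum.inr : Ω → Ω ⊕ Ω)) (dblCover 𝓢)

/-! ### Martin's axiom -/

/-- Martin's axiom for `ℵ₁` dense sets. -/
def MartinAxiom : Prop := ∀ (P : Type) [PartialOrder P] [Nonempty P],
    (∀ S : Set P, (∀ p ∈ S, ∀ q ∈ S, p ≠ q → ¬ ∃ r, r ≤ p ∧ r ≤ q) → S.Countable) →
    ∀ 𝓓 : Set (Set P), Cardinal.mk 𝓓 ≤ Cardinal.aleph 1 → (∀ D ∈ 𝓓, ∀ p, ∃ q ∈ D, q ≤ p) →
    ∃ G : Set P, G.Nonempty ∧ (∀ p ∈ G, ∀ q, p ≤ q → q ∈ G) ∧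
      (∀ p ∈ G, ∀ q ∈ G, ∃ r ∈ G, r ≤ p ∧ r ≤ q) ∧ ∀ D ∈ 𝓓, (D ∩ G).Nonempty

/-- (PRE) The precaliber argument for a poset of finite sets. -/
def S_PRE.{u} : Prop := MartinAxiom → ∀ (A : Type u), Cardinal.mk A = Cardinal.aleph 1 →
    ∀ 𝓠 : Set (Finset A), ∅ ∈ 𝓠 → (∀ a : A, {a} ∈ 𝓠) →
    (∀ S ⊆ 𝓠, ¬ S.Countable → ∃ F ∈ S, ∃ G ∈ S, F ≠ G ∧ ∃ H ∈ 𝓠, F ⊆ H ∧ G ⊆ H) →
    ∃ B : Set A, ¬ B.Countable ∧ ∀ F : Finset A, (↑F : Set A) ⊆ B → ∃ H ∈ 𝓠, F ⊆ H

/-- The cylinder of the coordinates in `F` of `s`. -/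
def cyl.{u} {A : Type u} (F : Finset A) (s : A → Bool) : Set (A → Bool) := {x | ∀ b ∈ F, x b = s b}

/-- The mean value of `f` over the cylinder `cyl F s`. -/
def avg.{u} {A : Type u} (f : (A → Bool) → ℝ) (F : Finset A) (s : A → Bool) : ℝ :=
  2 ^ F.card * ∫ x in cyl F s, f x ∂(coins A)

/-- The finite sets on which the functions `f a` are `θ`-independent. -/
def Good.{u} {A : Type u} (θ : ℝ) (f : A → (A → Bool) → ℝ) : Set (Finset A) :=
  {F | ∀ s : A → Bool, ∀ a ∈ F,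
    θ < sgn (s a) * ((avg (f a) F s - avg (f a) F (fun b => !s b)) / 2)}

open Classical in
/-- (CCC) The family `Good θ f` satisfies the countable chain condition. -/
def S_CCC.{u} : Prop := ∀ (A : Type u) (f : A → (A → Bool) → ℝ) (I : A → Set A) (θ M : ℝ),
    (∀ a, Measurable (f a)) → (∀ a x, |f a x| ≤ M) → (∀ a, (I a).Countable) →
    (∀ a, ∀ x y : A → Bool, (∀ i ∈ I a, x i = y i) → f a x = f a y) →
    ∀ S ⊆ Good θ f, ¬ S.Countable → ∃ F ∈ S, ∃ G ∈ S, F ≠ G ∧ F ∪ G ∈ Good θ f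

/-- (X3MA) -/
def S_X3MA.{u, v} : Prop := MartinAxiom → ∀ (A : Type u), Cardinal.mk A = Cardinal.aleph 1 →
    L1P.{u, v} A

/-! ### The continuum hypothesis -/

/-- A maximal family of pairwise singular probability measures. -/
def MaxFamX.{u} {X : Type u} [MeasurableSpace X] (𝓕 : Set (Measure X)) : Prop :=
  (∀ ν ∈ 𝓕, IsProbabilityMeasure ν) ∧
  (∀ ν ∈ 𝓕, ∀ ν' ∈ 𝓕, ν ≠ ν' → ν ⟂ₘ ν') ∧
  (∀ m : Measure X, IsFiniteMeasure m → (∀ ν ∈ 𝓕, m ⟂ₘ ν) → m = 0)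

/-- (ZDL) The dual of `C(X)` for a compact space whose sigma-algebra is generated by an algebra of
clopen sets that separates points. -/
def S_ZDL.{u} : Prop := ∀ (X : Type u) [TopologicalSpace X] [CompactSpace X] [T2Space X]
    [m0 : MeasurableSpace X] (𝒜 : Set (Set X)), IsSetAlgebra 𝒜 → (∀ s ∈ 𝒜, IsClopen s) →
    (∀ x y : X, x ≠ y → ∃ s ∈ 𝒜, x ∈ s ∧ y ∉ s) → m0 = MeasurableSpace.generateFrom 𝒜 →
    ∀ 𝓕 : Set (Measure X), MaxFamX 𝓕 →
    Nonempty (lp (fun ν : 𝓕 => Lp ℝ 1 (ν : Measure X)) 1 ≃ₗᵢ[ℝ] StrongDual ℝ C(X, ℝ))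

/-- The set `Z` depends only on the coordinates in `I`. -/
def Dep.{u} {A : Type u} (I : Set A) (Z : Set (A → Bool)) : Prop :=
  ∀ x y : A → Bool, (∀ i ∈ I, x i = y i) → (x ∈ Z ↔ y ∈ Z)

open Classical in
/-- Restriction to the coordinates below `a`. -/
def tr.{u} {A : Type u} [LinearOrder A] (a : A) (x : A → Bool) : A → Bool :=
  fun b => if b < a then x b else false

open Classical in
/-- The map onto the space: the coordinate `a` of `x` is kept if the point constructed so far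
belongs to `H a`, and replaced by `false` otherwise. -/
def Phi.{u} {A : Type u} [LinearOrder A] [WellFoundedLT A] (H : A → Set (A → Bool))
    (x : A → Bool) : A → Bool :=
  wellFounded_lt.fix (C := fun _ : A => Bool) fun a ih =>
    x a && decide ((fun b => if h : b < a then ih b h else false) ∈ H a)

/-- The data of the construction. -/
structure KH.{u} (A : Type u) [LinearOrder A] [WellFoundedLT A] (H : A → Set (A → Bool)) :
    Prop where
  card : Cardinal.mk A = Cardinal.aleph 1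
  ctbl : ∀ a : A, (Iio a).Countable
  closed : ∀ a, IsClosed (H a)
  dep : ∀ a, Dep (Iio a) (H a)
  half : ∀ a, (2⁻¹ : ℝ≥0∞) ≤ coins A {x | Phi H x ∈ H a}
  avoid : ∀ (Z : Set (A → Bool)) (I : Set A), IsClosed Z → I.Countable → Dep I Z →
    coins A {x | Phi H x ∈ Z} = 0 → ∃ a₀, ∀ a, a₀ ≤ a → H a ∩ Z = ∅

/-- (KH1) The recursion. -/
def S_KH1.{u} : Prop := Cardinal.aleph.{u} 1 = Cardinal.continuum →
    ∃ (A : Type u) (_ : LinearOrder A) (_ : WellFoundedLT A) (H : A → Set (A → Bool)), KH A H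

/-- The compact space. -/
def KK.{u} {A : Type u} (H : A → Set (A → Bool)) : Set (A → Bool) := {x | ∀ a, x a = true → x ∈ H a}

/-- (KH2) The map takes values in the space and is measurable. -/
def S_KH2.{u} : Prop := ∀ (A : Type u) [LinearOrder A] [WellFoundedLT A] (H : A → Set (A → Bool)),
    KH A H → IsClosed (KK H) ∧ Measurable (Phi H) ∧ ∀ x, Phi H x ∈ KK H

/-- (KH3) The measure is not separable. -/
def S_KH3.{u} : Prop := ∀ (A : Type u) [LinearOrder A] [WellFoundedLT A] (H : A → Set (A → Bool))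
    (_ : KH A H) (h : ∀ x, Phi H x ∈ KK H), Measurable (Phi H) →
    ¬ DensLt (Cardinal.aleph 1)
      (Lp ℝ 1 ((coins A).map (fun x => (⟨Phi H x, h x⟩ : KK H))))

/-- (KH4) Measures singular to it live on countably many coordinates. -/
def S_KH4.{u} : Prop := ∀ (A : Type u) [LinearOrder A] [WellFoundedLT A] (H : A → Set (A → Bool))
    (_ : KH A H) (h : ∀ x, Phi H x ∈ KK H), Measurable (Phi H) →
    ∀ ν : Measure (KK H), IsProbabilityMeasure ν →
    ν ⟂ₘ (coins A).map (fun x => (⟨Phi H x, h x⟩ : KK H)) →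
    ∃ a₀ : A, ∀ a, a₀ ≤ a → ν {x | (x : A → Bool) a = true} = 0

/-- (KH5) Measures on a subset of `{0,1}^A` that live on countably many coordinates: they are
separable, and there are at most continuum many of them. -/
def S_KH5.{u} : Prop := ∀ (A : Type u) [LinearOrder A] (K : Set (A → Bool)),
    Cardinal.mk A ≤ Cardinal.continuum → (∀ a : A, (Iio a).Countable) →
    (∀ ν : Measure K, IsProbabilityMeasure ν →
      (∃ a₀ : A, ∀ a, a₀ ≤ a → ν {x | (x : A → Bool) a = true} = 0) →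
      DensLt (Cardinal.aleph 1) (Lp ℝ 1 ν)) ∧
    Cardinal.mk {ν : Measure K | IsProbabilityMeasure ν ∧
      ∃ a₀ : A, ∀ a, a₀ ≤ a → ν {x | (x : A → Bool) a = true} = 0} ≤ Cardinal.continuum

/-- The types of the pieces of the dual of the space. -/
def ty.{u} : Option (Cardinal.aleph0.{u}.out → Bool) → Cardinal.{u} :=
  fun o => o.elim (Cardinal.aleph 1) (fun _ => Cardinal.aleph0)

/-- (K12) A Banach space whose dual has a single piece of type `ℵ₁` and at most continuum many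
separable pieces. -/
def S_K12.{u} : Prop := Cardinal.aleph.{u} 1 = Cardinal.continuum →
    ∃ (Y : Type u) (_ : NormedAddCommGroup Y) (_ : NormedSpace ℝ Y) (_ : CompleteSpace Y),
      CE (XC (Cardinal.aleph.{u} 1).out) (StrongDual ℝ Y) ∧
      CE (StrongDual ℝ Y) (lp (fun o => XC (ty.{u} o).out) 1)

/-- (WCH) The abstract comparison under the continuum hypothesis. -/
def S_WCH.{u} : Prop := Cardinal.aleph.{u} 1 = Cardinal.continuum →
    ∀ (P : Type u) (t : P → Cardinal.{u}) (X : P → Type u)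
    [∀ p, NormedAddCommGroup (X p)] [∀ p, NormedSpace ℝ (X p)] [∀ p, CompleteSpace (X p)],
    (∀ p, t p = Cardinal.aleph0 ∨ t p = Cardinal.aleph 1) →
    (∀ p, CE (XC (t p).out) (X p) ∧ CE (X p) (XC (t p).out)) →
    Cardinal.continuum ≤ Cardinal.mk P →
    ∃ (Z : Type u) (_ : NormedAddCommGroup Z) (_ : NormedSpace ℝ Z) (_ : CompleteSpace Z),
      Nonempty (lp X 1 ≃L[ℝ] StrongDual ℝ Z)

end Pool.Agent.H624.LD
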