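import Pool.Agent.H624.LD.Stm

set_option autoImplicit false

open MeasureTheory Set Filter
open scoped ENNReal NNReal Topology
open Pool.Agent.W6h79.LD

noncomputable section

namespace Pool.Agent.H624.LD

/-- (EX) A measure with a single piece of type `ℵ₁` and continuum many separable pieces: it satisfies
the condition at all infinite cardinals except `ℵ₁` (no use of CH). -/
def S_EX : Prop := ∃ (Ω : Type) (_ : MeasurableSpace Ω) (μ : Measure Ω),
    (∀ κ : Cardinal.{0}, Cardinal.aleph0 ≤ κ → κ ≠ Cardinal.aleph 1 → CondT κ μ) ∧
    ¬ CondT (Cardinal.aleph 1) μ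

end Pool.Agent.H624.LD
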