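import Pool.Agent.H624.LD.Stm
import Pool.Graph.R_pool_sql_team_seeded_9f66d723.W6h79.LD.X3

/-!
# (X3G) `L¹({0,1}^κ) ⊂ Y*` implies `ℓ¹(κ) ⊂ Y`, every cardinal `κ` above `ℵ₁`
(the library proof for regular cardinals with Hajnal's theorem for all cardinals)
-/

set_option autoImplicit false

open MeasureTheory Set Filter
open scoped ENNReal NNReal Topology
open Pool.Agent.W6h79.LD

noncomputable section

namespace Pool.Agent.H624.LD

open PD5 PX3c in
theorem sX3G.{u, v} (h1 : S_HAJ.{u}) (h2 : S_D2.{u}) (h3 : S_D3.{u}) (hx : S_X2.{u}) :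
    S_X3G.{u, v} := by
  classical
  intro A hA Y _ _ T c hc hT
  choose y hy1 hy2 using PX3c.exists_y T c hc hT
  let L : A → Lp ℝ 1 (coins A) →L[ℝ] ℝ := fun a =>
    (ContinuousLinearMap.apply ℝ ℝ (y a)).comp T
  have hL : ∀ a g, L a g = T g (y a) := fun a g => rfl
  choose f hfm hfb hfi using fun a => h3 (A → Bool) (coins A) inferInstance (L a)
  have hne : ∀ a, c / 2 ≤ ∫ x, f a x * sgn (x a) ∂(coins A) := by
    intro a
    have h5 := hfi a ((memLp_sgn a).toLp _)
    have h6 : ∫ x, f a x * ((memLp_sgn a).toLp _ : Lp ℝ 1 (coins A)) x ∂(coins A) =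
        ∫ x, f a x * sgn (x a) ∂(coins A) := by
      refine integral_congr_ae ?_
      filter_upwards [(memLp_sgn a).coeFn_toLp] with x hx
      rw [hx]
    rw [← h6, ← h5, hL]
    exact hy2 a
  choose I hIc hId using fun a => h2 A (f a) (hfm a)
  obtain ⟨B, hB, hfree⟩ := h1 A hA I hIc
  obtain ⟨e⟩ := Cardinal.eq.1 hB.symm
  have hinj : Function.Injective fun i => (e i : A) :=
    Subtype.val_injective.comp e.injective
  have hTn : 0 ≤ ‖T‖ := norm_nonneg T
  refine ⟨fun i => y (e i), c / (2 * ‖T‖ + 1), by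
    apply div_pos hc (by linarith), fun i => hy1 _, fun J a => ?_⟩
  let s : A → Bool := Function.extend (fun i => (e i : A)) (fun i => decide (0 ≤ a i))
    (fun _ => false)
  have hs : ∀ i, s (e i) = decide (0 ≤ a i) := fun i =>
    hinj.extend_apply (fun i => decide (0 ≤ a i)) (fun _ => false) i
  let F : Finset A := J.image fun i => (e i : A)
  have hF : (↑F : Set A) ⊆ B := by
    intro b hb
    obtain ⟨i, -, rfl⟩ := Finset.mem_image.1 (Finset.mem_coe.1 hb)
    exact (e i).2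
  have hm1 := meas_CY F s
  have hm2 := meas_CY F fun b => !s b
  have hp1 : 0 < coins A (CY F s) := by
    rw [coins_CY]
    exact ENNReal.pow_pos (ENNReal.inv_pos.2 ENNReal.ofNat_ne_top) _
  have hp2 : 0 < coins A (CY F fun b => !s b) := by
    rw [coins_CY]
    exact ENNReal.pow_pos (ENNReal.inv_pos.2 ENNReal.ofNat_ne_top) _
  let g : Lp ℝ 1 (coins A) := nu (coins A) _ hm1 - nu (coins A) _ hm2
  have hg : ‖g‖ ≤ 2 := by
    calc ‖g‖ ≤ ‖nu (coins A) _ hm1‖ + ‖nu (coins A) _ hm2‖ := norm_sub_le _ _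
      _ ≤ 1 + 1 := add_le_add (norm_nu _ _ _ hp1) (norm_nu _ _ _ hp2)
      _ = 2 := by norm_num
  have hval : ∀ i ∈ J, c * |a i| ≤ a i * T g (y (e i)) := by
    intro i hi
    have hiF : (e i : A) ∈ F := Finset.mem_image_of_mem _ hi
    have hfr : ∀ b ∈ F, b ≠ (e i : A) → b ∉ I (e i) := fun b hb hbe =>
      hfree b (hF (Finset.mem_coe.2 hb)) (e i) (e i).2 hbe
    have k1 := hx A (f (e i)) (I (e i)) (hfm _) ⟨_, hfb _⟩ (hId _) F (e i) s hiF hfr
    have k2 := hx A (f (e i)) (I (e i)) (hfm _) ⟨_, hfb _⟩ (hId _) F (e i) (fun b => !s b) hiF hfr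
    have h7 : T g (y (e i)) = 2 * (sgn (s (e i)) * ∫ x, f (e i) x * sgn (x (e i)) ∂(coins A)) := by
      rw [← hL, show g = nu (coins A) _ hm1 - nu (coins A) _ hm2 from rfl, map_sub, hfi, hfi,
        int_nu, int_nu, real_CY, real_CY]
      change 2 ^ F.card * ∫ x in {x : A → Bool | ∀ b ∈ F, x b = s b}, f (e i) x ∂(coins A) -
        2 ^ F.card * ∫ x in {x : A → Bool | ∀ b ∈ F, x b = !s b}, f (e i) x ∂(coins A) = _
      rw [k1, k2]
      have h8 : sgn (!s (e i)) = - sgn (s (e i)) := by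
        cases s (e i) <;> simp [sgn]
      rw [h8]
      ring
    rw [h7]
    have h9 := hne (e i)
    by_cases h0 : 0 ≤ a i
    · have hsi : s (e i) = true := by rw [hs]; simpa using h0
      rw [hsi, abs_of_nonneg h0]
      have : sgn true = 1 := by simp [sgn]
      rw [this]
      nlinarith
    · have hsi : s (e i) = false := by rw [hs]; simpa using h0
      push Not at h0
      rw [hsi, abs_of_neg h0]
      have : sgn false = -1 := by simp [sgn]
      rw [this]
      nlinarith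
  have hsum : c * ∑ i ∈ J, |a i| ≤ T g (∑ i ∈ J, a i • y (e i)) := by
    rw [map_sum, Finset.mul_sum]
    refine Finset.sum_le_sum fun i hi => ?_
    rw [map_smul, smul_eq_mul]
    exact hval i hi
  have hup : T g (∑ i ∈ J, a i • y (e i)) ≤ (2 * ‖T‖ + 1) * ‖∑ i ∈ J, a i • y (e i)‖ := by
    calc T g (∑ i ∈ J, a i • y (e i)) ≤ ‖T g (∑ i ∈ J, a i • y (e i))‖ := le_abs_self _
      _ ≤ ‖T g‖ * ‖∑ i ∈ J, a i • y (e i)‖ := (T g).le_opNorm _
      _ ≤ (2 * ‖T‖ + 1) * ‖∑ i ∈ J, a i • y (e i)‖ := by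
        refine mul_le_mul_of_nonneg_right ?_ (norm_nonneg _)
        calc ‖T g‖ ≤ ‖T‖ * ‖g‖ := T.le_opNorm _
          _ ≤ ‖T‖ * 2 := mul_le_mul_of_nonneg_left hg hTn
          _ ≤ 2 * ‖T‖ + 1 := by linarith
  rw [div_mul_eq_mul_div, div_le_iff₀ (by linarith : (0:ℝ) < 2 * ‖T‖ + 1)]
  calc c * ∑ i ∈ J, |a i| ≤ _ := hsum
    _ ≤ _ := hup
    _ = _ := by ring

end Pool.Agent.H624.LD
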